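import Pool.Agent.helper7.DF.Spec
import Pool.Agent.helper99.FI.THS

/-! Row MAI of project DF. -/

set_option autoImplicit false

open Finset

namespace Pool.Agent.DFO

open Pool.Agent.LDH (ee)

private lemma MAI_re (θ : ℝ) : (ee (-(2 / 3)) * ee θ).re = Real.cos (2 * Real.pi * (θ - 2 / 3)) := by
  unfold ee
  rw [← Complex.exp_add, ← add_mul, ← Complex.ofReal_add, Complex.exp_ofReal_mul_I_re]
  congr 1
  ring

private lemma MAI_T (n p : ℕ) (hp : 0 < p) (h : 3 * (n % p) ≤ p) :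
    1 / 2 + (ee (-(2 / 3)) * ee ((n : ℝ) / p)).re ≤ 0 := by
  rw [MAI_re]
  have hp' : (0 : ℝ) < p := by exact_mod_cast hp
  set s : ℝ := ((n % p : ℕ) : ℝ) / p with hs
  have hs0 : 0 ≤ s := by positivity
  have hs1 : s ≤ 1 / 3 := by
    rw [hs, div_le_iff₀ hp']
    have : (3 : ℝ) * ((n % p : ℕ) : ℝ) ≤ p := by exact_mod_cast h
    linarith
  have hn : (n : ℝ) / p = s + (n / p : ℕ) := by
    have h1 : ((p * (n / p) + n % p : ℕ) : ℝ) = (n : ℝ) := by rw [Nat.div_add_mod]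
    rw [hs, eq_comm, ← h1]
    push_cast
    field_simp
    ring
  have e1 : 2 * Real.pi * ((n : ℝ) / p - 2 / 3) = (2 * Real.pi * (s - 1 / 6) - Real.pi) + (n / p : ℕ) * (2 * Real.pi) := by
    rw [hn]; ring
  rw [e1, Real.cos_add_nat_mul_two_pi, Real.cos_sub_pi]
  have hpi := Real.pi_pos
  have h2 : |2 * Real.pi * (s - 1 / 6)| ≤ Real.pi / 3 := by
    rw [abs_le]
    constructor <;> nlinarith
  have h3 : Real.cos (Real.pi / 3) ≤ Real.cos (|2 * Real.pi * (s - 1 / 6)|) :=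
    Real.cos_le_cos_of_nonneg_of_le_pi (abs_nonneg _) (by linarith) h2
  rw [Real.cos_abs, Real.cos_pi_div_three] at h3
  linarith

private lemma MAI_core (n k : ℕ) (hk : 20 ≤ k) (hH : ¬ Hit n k) :
    (1 / 2) * ∑ m ∈ Ioc (11 * k / 20) (3 * k / 5), ArithmeticFunction.vonMangoldt m +
      (ee (-(2 / 3)) * ∑ m ∈ Ioc (11 * k / 20) (3 * k / 5), (ArithmeticFunction.vonMangoldt m : ℂ) * ee ((n : ℝ) / m)).re
      ≤ 3 * (√(k : ℝ) * Real.log k) := by
  have e1 : (1 / 2) * ∑ m ∈ Ioc (11 * k / 20) (3 * k / 5), ArithmeticFunction.vonMangoldt m +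
      (ee (-(2 / 3)) * ∑ m ∈ Ioc (11 * k / 20) (3 * k / 5), (ArithmeticFunction.vonMangoldt m : ℂ) * ee ((n : ℝ) / m)).re =
      ∑ m ∈ Ioc (11 * k / 20) (3 * k / 5), ArithmeticFunction.vonMangoldt m * (1 / 2 + (ee (-(2 / 3)) * ee ((n : ℝ) / m)).re) := by
    rw [Finset.mul_sum, Finset.mul_sum, Complex.re_sum, ← Finset.sum_add_distrib]
    refine Finset.sum_congr rfl fun m _ => ?_
    have : (ee (-(2 / 3)) * ((ArithmeticFunction.vonMangoldt m : ℂ) * ee ((n : ℝ) / m))).re =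
        ArithmeticFunction.vonMangoldt m * (ee (-(2 / 3)) * ee ((n : ℝ) / m)).re := by
      rw [mul_left_comm, Complex.re_ofReal_mul]
    rw [this]; ring
  rw [e1]
  have h1 : ∀ m ∈ Ioc (11 * k / 20) (3 * k / 5),
      ArithmeticFunction.vonMangoldt m * (1 / 2 + (ee (-(2 / 3)) * ee ((n : ℝ) / m)).re) ≤
        (3 / 2) * (if ¬ m.Prime then ArithmeticFunction.vonMangoldt m else 0) := by
    intro m hm
    rw [Finset.mem_Ioc] at hm
    have hL : 0 ≤ ArithmeticFunction.vonMangoldt m := ArithmeticFunction.vonMangoldt_nonneg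
    by_cases hp : m.Prime
    · rw [if_neg (not_not.mpr hp), mul_zero]
      refine mul_nonpos_of_nonneg_of_nonpos hL (MAI_T n m hp.pos ?_)
      by_contra hc
      apply hH
      refine ⟨m, hp, by omega, ?_⟩
      have h2 : k % m = k - m := by
        rw [Nat.mod_eq_sub_mod (by omega), Nat.mod_eq_of_lt (by omega)]
      rw [h2]
      omega
    · rw [if_pos hp, mul_comm (3 / 2 : ℝ)]
      refine mul_le_mul_of_nonneg_left ?_ hL
      rw [MAI_re]
      have := Real.cos_le_one (2 * Real.pi * ((n : ℝ) / m - 2 / 3))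
      linarith
  refine (Finset.sum_le_sum h1).trans ?_
  rw [← Finset.mul_sum]
  have h2 : ∑ m ∈ Ioc (11 * k / 20) (3 * k / 5), (if ¬ m.Prime then ArithmeticFunction.vonMangoldt m else 0) ≤
      Chebyshev.psi k - Chebyshev.theta k := by
    rw [Chebyshev.psi_sub_theta_eq_sum_not_prime, Nat.floor_natCast, Finset.sum_filter]
    refine Finset.sum_le_sum_of_subset_of_nonneg ?_ ?_
    · intro m hm
      rw [Finset.mem_Ioc] at hm ⊢
      omega
    · intro m _ _
      split_ifs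
      · exact le_rfl
      · exact ArithmeticFunction.vonMangoldt_nonneg
  have h3 := Chebyshev.psi_sub_theta_le (x := (k : ℝ)) (by exact_mod_cast (by omega : 1 ≤ k))
  nlinarith

private lemma MAI_theta : ∃ x₀ : ℕ, ∀ k : ℕ, x₀ ≤ k → ∀ u : ℕ, u ≤ 2 * k →
    |∑ m ∈ Ioc 0 u, (if m.Prime then Real.log m else 0) - u| ≤ k / Real.log k := by
  obtain ⟨x₀, hx⟩ := Pool.Agent.FI.THS 1 0
  refine ⟨x₀, fun k hk u hu => ?_⟩
  have h := hx k hk 1 le_rfl (by simp) 0 u (by simpa using (isCoprime_zero_left.mpr isUnit_one : IsCoprime (0 : ℤ) 1)) hu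
  have e : ∑ l ∈ Ioc (0 : ℤ) u with ((1 : ℕ) : ℤ) ∣ l - 0, Pool.Agent.FI.th l = ∑ m ∈ Ioc 0 u, (if m.Prime then Real.log m else 0) := by
    rw [Finset.filter_true_of_mem (by simp)]
    refine Finset.sum_nbij' (fun l => l.toNat) (fun m => (m : ℤ)) ?_ ?_ ?_ ?_ ?_
    · intro l hl
      rw [Finset.mem_Ioc] at hl ⊢
      omega
    · intro m hm
      rw [Finset.mem_Ioc] at hm ⊢
      omega
    · intro l hl
      rw [Finset.mem_Ioc] at hl
      omega
    · intro m hm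
      simp
    · intro l hl
      rw [Finset.mem_Ioc] at hl
      unfold Pool.Agent.FI.th
      have : ((l.toNat : ℕ) : ℝ) = (l : ℝ) := by
        have h0 : ((l.toNat : ℕ) : ℤ) = l := Int.toNat_of_nonneg (by omega)
        exact_mod_cast congrArg (Int.cast : ℤ → ℝ) h0
      rw [this]
  rw [e] at h
  simpa using h

private lemma MAI_lower : ∃ x₀ : ℕ, ∀ k : ℕ, x₀ ≤ k →
    (k : ℝ) / 20 - 1 - 2 * (k / Real.log k) ≤ ∑ m ∈ Ioc (11 * k / 20) (3 * k / 5), ArithmeticFunction.vonMangoldt m := by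
  obtain ⟨x₀, hx⟩ := MAI_theta
  refine ⟨x₀, fun k hk => ?_⟩
  have h1 := (abs_le.mp (hx k hk (3 * k / 5) (by omega))).1
  have h2 := (abs_le.mp (hx k hk (11 * k / 20) (by omega))).2
  have h3 : ∑ m ∈ Ioc (11 * k / 20) (3 * k / 5), (if m.Prime then Real.log m else 0) ≤
      ∑ m ∈ Ioc (11 * k / 20) (3 * k / 5), ArithmeticFunction.vonMangoldt m := by
    refine Finset.sum_le_sum fun m _ => ?_
    split_ifs with hp
    · rw [ArithmeticFunction.vonMangoldt_apply_prime hp]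
    · exact ArithmeticFunction.vonMangoldt_nonneg
  have h4 : ∑ m ∈ Ioc 0 (11 * k / 20), (if m.Prime then Real.log m else 0) +
      ∑ m ∈ Ioc (11 * k / 20) (3 * k / 5), (if m.Prime then Real.log m else 0) =
      ∑ m ∈ Ioc 0 (3 * k / 5), (if m.Prime then Real.log m else 0) :=
    Finset.sum_Ioc_consecutive _ (by omega) (by omega)
  have h5 : (11 * k / 20 : ℕ) ≤ (11 * k : ℝ) / 20 := by
    have := Nat.cast_div_le (α := ℝ) (m := 11 * k) (n := 20)
    simpa using this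
  have h6 : (3 * k : ℝ) / 5 ≤ (3 * k / 5 : ℕ) + 1 := by
    have h : 3 * k ≤ 5 * (3 * k / 5 + 1) := by omega
    have : ((3 * k : ℕ) : ℝ) ≤ ((5 * (3 * k / 5 + 1) : ℕ) : ℝ) := by exact_mod_cast h
    push_cast at this
    rw [div_le_iff₀ (by norm_num)]
    linarith
  linarith

private lemma MAI_lim (B : ℕ) (δ C : ℝ) (hδ : 0 < δ) :
    ∀ᶠ k : ℕ in Filter.atTop, 3 * (√(k : ℝ) * Real.log k) + C * k * (2 ^ B / Real.log k ^ 2 + (1 + Real.log k) ^ B * (k : ℝ) ^ (-δ)) <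
      (1 / 2) * ((k : ℝ) / 20 - 1 - 2 * (k / Real.log k)) := by
  have hcast : Filter.Tendsto (fun k : ℕ => (k : ℝ)) Filter.atTop Filter.atTop := tendsto_natCast_atTop_atTop
  have hlog : Filter.Tendsto (fun k : ℕ => Real.log k) Filter.atTop Filter.atTop := Real.tendsto_log_atTop.comp hcast
  have l1 : Filter.Tendsto (fun k : ℕ => (k : ℝ)⁻¹) Filter.atTop (nhds 0) := tendsto_inv_atTop_zero.comp hcast
  have l2 : Filter.Tendsto (fun k : ℕ => (Real.log k)⁻¹) Filter.atTop (nhds 0) := tendsto_inv_atTop_zero.comp hlog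
  have l3 : Filter.Tendsto (fun k : ℕ => Real.log k / (k : ℝ) ^ (1 / 2 : ℝ)) Filter.atTop (nhds 0) :=
    ((isLittleO_log_rpow_atTop (by norm_num : (0 : ℝ) < 1 / 2)).tendsto_div_nhds_zero).comp hcast
  have l4 : Filter.Tendsto (fun k : ℕ => (1 + Real.log k) ^ B * (k : ℝ) ^ (-δ)) Filter.atTop (nhds 0) := by
    have h0 : Filter.Tendsto (fun x : ℝ => x ^ B * Real.exp (-δ * x)) Filter.atTop (nhds 0) := by
      have := Real.tendsto_pow_mul_exp_neg_atTop_nhds_zero B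
      have h1 := this.comp (Filter.tendsto_id.const_mul_atTop hδ)
      have h2 := h1.const_mul ((1 / δ) ^ B)
      rw [mul_zero] at h2
      refine h2.congr fun x => ?_
      simp only [Function.comp, id]
      rw [mul_pow, neg_mul]
      have hd : (1 / δ) ^ B * δ ^ B = 1 := by
        rw [← mul_pow, one_div, inv_mul_cancel₀ hδ.ne', one_pow]
      calc (1 / δ) ^ B * (δ ^ B * x ^ B * Real.exp (-(δ * x))) = ((1 / δ) ^ B * δ ^ B) * (x ^ B * Real.exp (-(δ * x))) := by ring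
        _ = x ^ B * Real.exp (-(δ * x)) := by rw [hd, one_mul]
    have h1 : Filter.Tendsto (fun k : ℕ => 1 + Real.log k) Filter.atTop Filter.atTop := Filter.tendsto_atTop_add_const_left _ _ hlog
    have h2 := (h0.comp h1).const_mul (Real.exp δ)
    rw [mul_zero] at h2
    refine h2.congr' ?_
    filter_upwards [Filter.eventually_ge_atTop 1] with k hk
    have hk' : (0 : ℝ) < k := by exact_mod_cast hk
    simp only [Function.comp]
    rw [Real.rpow_def_of_pos hk', mul_left_comm, ← Real.exp_add]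
    congr 2
    ring
  have hlim : Filter.Tendsto (fun k : ℕ => (1 / 2) * (1 / 20 - (k : ℝ)⁻¹ - 2 * (Real.log k)⁻¹) - 3 * (Real.log k / (k : ℝ) ^ (1 / 2 : ℝ)) -
      C * (2 ^ B * ((Real.log k)⁻¹) ^ 2 + (1 + Real.log k) ^ B * (k : ℝ) ^ (-δ))) Filter.atTop
      (nhds ((1 / 2) * (1 / 20 - 0 - 2 * 0) - 3 * 0 - C * (2 ^ B * 0 ^ 2 + 0))) :=
    ((((tendsto_const_nhds.sub l1).sub (l2.const_mul 2)).const_mul (1 / 2)).sub (l3.const_mul 3)).sub
      ((((l2.pow 2).const_mul (2 ^ B)).add l4).const_mul C)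
  have hpos : (0 : ℝ) < (1 / 2) * (1 / 20 - 0 - 2 * 0) - 3 * 0 - C * (2 ^ B * 0 ^ 2 + 0) := by norm_num
  filter_upwards [hlim.eventually (lt_mem_nhds hpos), Filter.eventually_ge_atTop 3] with k hk hk3
  have hk' : (0 : ℝ) < k := by
    have : 0 < k := by omega
    exact_mod_cast this
  have hm := mul_pos hk' hk
  have e1 : √(k : ℝ) * Real.log k = k * (Real.log k / (k : ℝ) ^ (1 / 2 : ℝ)) := by
    rw [← Real.sqrt_eq_rpow]
    have hs : √(k : ℝ) ≠ 0 := (Real.sqrt_pos.mpr hk').ne'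
    have hss : √(k : ℝ) * √(k : ℝ) = k := Real.mul_self_sqrt hk'.le
    rw [mul_div_assoc', eq_div_iff hs]
    calc √(k : ℝ) * Real.log k * √(k : ℝ) = (√(k : ℝ) * √(k : ℝ)) * Real.log k := by ring
      _ = k * Real.log k := by rw [hss]
  have e2 : (k : ℝ) * (k : ℝ)⁻¹ = 1 := mul_inv_cancel₀ hk'.ne'
  have e3 : (2 : ℝ) ^ B / Real.log k ^ 2 = 2 ^ B * ((Real.log k)⁻¹) ^ 2 := by
    rw [inv_pow, div_eq_mul_inv]
  have e4 : (k : ℝ) / Real.log k = k * (Real.log k)⁻¹ := div_eq_mul_inv _ _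
  rw [e1, e3, e4]
  nlinarith [hm, e2]

theorem MAI (hVAU : VAU_stmt) : MAI_stmt := by
  intro A
  obtain ⟨δ, C, B, hδ, hC, hV⟩ := hVAU A
  obtain ⟨x₀, hx⟩ := MAI_lower
  obtain ⟨k₁, hk₁⟩ := Filter.eventually_atTop.mp (MAI_lim B δ C hδ)
  refine ⟨2 * B + 4, max (max x₀ k₁) 20, fun k hk n hn hA => ?_⟩
  have hkx : x₀ ≤ k := le_trans (le_trans (le_max_left _ _) (le_max_left _ _)) hk
  have hk1 : k₁ ≤ k := le_trans (le_trans (le_max_right _ _) (le_max_left _ _)) hk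
  have hk20 : 20 ≤ k := le_trans (le_max_right _ _) hk
  by_contra hH
  have hkpos : (0 : ℝ) < k := by
    have : 0 < k := by omega
    exact_mod_cast this
  have hlog1 : 1 ≤ Real.log k := by
    rw [Real.le_log_iff_exp_le hkpos]
    have h1 := Real.exp_one_lt_d9
    have h2 : (20 : ℝ) ≤ k := by exact_mod_cast hk20
    linarith
  have hlogpos : 0 < Real.log k := by linarith
  have hnk : (k : ℝ) ≤ n := by
    refine le_trans ?_ hn
    have : 1 ≤ Real.log k ^ (2 * B + 4) := one_le_pow₀ hlog1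
    nlinarith
  have hnpos : (0 : ℝ) < n := lt_of_lt_of_le hkpos hnk
  have hcore := MAI_core n k hk20 hH
  have hlow := hx k hkx
  have hlim := hk₁ k hk1
  have hv := hV k (11 * k / 20) (3 * k / 5) n (by omega) (by omega) (by omega) (by omega) hnk
    (by exact_mod_cast hA)
  have hre : -(‖∑ m ∈ Ioc (11 * k / 20) (3 * k / 5), (ArithmeticFunction.vonMangoldt m : ℂ) * ee ((n : ℝ) / m)‖) ≤
      (ee (-(2 / 3)) * ∑ m ∈ Ioc (11 * k / 20) (3 * k / 5), (ArithmeticFunction.vonMangoldt m : ℂ) * ee ((n : ℝ) / m)).re := by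
    have h1 := (abs_le.mp (Complex.abs_re_le_norm (ee (-(2 / 3)) * ∑ m ∈ Ioc (11 * k / 20) (3 * k / 5), (ArithmeticFunction.vonMangoldt m : ℂ) * ee ((n : ℝ) / m)))).1
    have h2 : ‖ee (-(2 / 3))‖ = 1 := by
      unfold ee
      exact Complex.norm_exp_ofReal_mul_I _
    rw [norm_mul, h2, one_mul] at h1
    exact h1
  have hsq : ((k : ℝ) / n) ^ (1 / 2 : ℝ) ≤ (1 / Real.log k) ^ (B + 2) := by
    rw [← Real.sqrt_eq_rpow]
    refine Real.sqrt_le_iff.mpr ⟨by positivity, ?_⟩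
    rw [← pow_mul, show (B + 2) * 2 = 2 * B + 4 by ring, one_div, inv_pow, div_le_iff₀ hnpos]
    have hp : 0 < Real.log k ^ (2 * B + 4) := by positivity
    rw [inv_mul_eq_div, le_div_iff₀ hp]
    exact hn
  have hB : (1 + Real.log k) ^ B * ((k : ℝ) / n) ^ (1 / 2 : ℝ) ≤ 2 ^ B / Real.log k ^ 2 := by
    calc (1 + Real.log k) ^ B * ((k : ℝ) / n) ^ (1 / 2 : ℝ) ≤ (2 * Real.log k) ^ B * (1 / Real.log k) ^ (B + 2) := by
          refine mul_le_mul (pow_le_pow_left₀ (by linarith) (by linarith) _) hsq (by positivity) (by positivity)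
      _ = 2 ^ B / Real.log k ^ 2 := by
          rw [mul_pow, pow_add, one_div, inv_pow, inv_pow]
          field_simp
  have hfin : C * k * (1 + Real.log k) ^ B * (((k : ℝ) / n) ^ (1 / 2 : ℝ) + (k : ℝ) ^ (-δ)) ≤
      C * k * (2 ^ B / Real.log k ^ 2 + (1 + Real.log k) ^ B * (k : ℝ) ^ (-δ)) := by
    have : C * k * (1 + Real.log k) ^ B * (((k : ℝ) / n) ^ (1 / 2 : ℝ) + (k : ℝ) ^ (-δ)) =
        C * k * ((1 + Real.log k) ^ B * ((k : ℝ) / n) ^ (1 / 2 : ℝ) + (1 + Real.log k) ^ B * (k : ℝ) ^ (-δ)) := by ring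
    rw [this]
    have hCk : 0 ≤ C * k := by positivity
    exact mul_le_mul_of_nonneg_left (by linarith) hCk
  linarith

end Pool.Agent.DFO
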