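import Pool.Agent.helper7.DF.Spec

/-! Row TID of project DF. -/

set_option autoImplicit false

open Finset

namespace Pool.Agent.DFO

open Pool.Agent.LDH (ee)

private lemma TID_ee (x : ℝ) : ‖ee x‖ = 1 := by
  unfold ee
  exact Complex.norm_exp_ofReal_mul_I _

private lemma TID_triv (f : ℕ → ℝ) (a b : ℕ) : ‖∑ l ∈ Ioc a b, ee (f l)‖ ≤ ((b - a : ℕ) : ℝ) := by
  refine (norm_sum_le _ _).trans ?_
  simp only [TID_ee]
  simp

theorem TID (hKSM : KSM_stmt) : TID_stmt := by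
  intro A
  obtain ⟨δ', C', hδ', hδ1, hC', hK⟩ := hKSM (8 * A)
  refine ⟨δ' / 4, 3 * 65536 + C' + 1, by positivity, by linarith, by linarith, ?_⟩
  intro k d a b x hd hdk hab hbk hka hkx hxA
  have hd' : (1 : ℝ) ≤ d := by exact_mod_cast hd
  have hdpos : (0 : ℝ) < d := by linarith
  have hk0 : 0 < k := by
    rcases Nat.eq_zero_or_pos k with h | h
    · exfalso
      rw [h] at hdk
      rw [Nat.cast_zero, Real.zero_rpow (by norm_num)] at hdk
      linarith
    · exact h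
  have hkpos : (0 : ℝ) < k := by exact_mod_cast hk0
  have hk1 : (1 : ℝ) ≤ k := by exact_mod_cast hk0
  have hxpos : 0 < x := lt_of_lt_of_le hkpos hkx
  have hkx0 : 0 ≤ (k : ℝ) / x := by positivity
  have hkd : (1 : ℝ) ≤ (k : ℝ) / d := by
    rw [le_div_iff₀ hdpos, one_mul]
    refine hdk.trans ?_
    calc (k : ℝ) ^ (3 / 4 : ℝ) ≤ (k : ℝ) ^ (1 : ℝ) := Real.rpow_le_rpow_of_exponent_le hk1 (by norm_num)
      _ = k := Real.rpow_one _
  have hpw : 0 < (k : ℝ) ^ (-(δ' / 4)) := Real.rpow_pos_of_pos hkpos _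
  -- number of terms
  have hnum : (((b / d) - (a / d) : ℕ) : ℝ) ≤ 2 * ((k : ℝ) / d) := by
    have h1 : (((b / d) - (a / d) : ℕ) : ℝ) ≤ ((b / d : ℕ) : ℝ) := by exact_mod_cast Nat.sub_le _ _
    have h2 : ((b / d : ℕ) : ℝ) ≤ (b : ℝ) / d := Nat.cast_div_le
    have h3 : (b : ℝ) / d ≤ (k : ℝ) / d := by
      have : (b : ℝ) ≤ k := by exact_mod_cast hbk
      gcongr
    have h4 : 0 ≤ (k : ℝ) / d := by positivity
    linarith
  by_cases hsmall : k < 65536
  · refine (TID_triv _ _ _).trans (hnum.trans ?_)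
    have h1 : (1 : ℝ) ≤ 65536 * (k : ℝ) ^ (-(δ' / 4)) := by
      have h2 : (k : ℝ) ^ (δ' / 4) ≤ 65536 := by
        calc (k : ℝ) ^ (δ' / 4) ≤ (k : ℝ) ^ (1 : ℝ) := Real.rpow_le_rpow_of_exponent_le hk1 (by linarith)
          _ = k := Real.rpow_one _
          _ ≤ 65536 := by exact_mod_cast hsmall.le
      rw [Real.rpow_neg hkpos.le]
      have h3 : 0 < (k : ℝ) ^ (δ' / 4) := Real.rpow_pos_of_pos hkpos _
      rw [← div_eq_mul_inv, le_div_iff₀ h3, one_mul]
      exact h2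
    have h4 : 0 ≤ (k : ℝ) / d := by positivity
    calc 2 * ((k : ℝ) / d) ≤ 2 * ((k : ℝ) / d) * (65536 * (k : ℝ) ^ (-(δ' / 4))) := by
          exact le_mul_of_one_le_right (by positivity) h1
      _ ≤ (3 * 65536 + C' + 1) * ((k : ℝ) / d) * ((k : ℝ) / x + (k : ℝ) ^ (-(δ' / 4))) := by
          have h5 : 0 ≤ ((k : ℝ) / d) * (k : ℝ) ^ (-(δ' / 4)) := by positivity
          have h6 : 0 ≤ (3 * 65536 + C' + 1) * ((k : ℝ) / d) * ((k : ℝ) / x) := by positivity
          nlinarith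
  · have hbig : (65536 : ℝ) ≤ k := by exact_mod_cast (not_lt.mp hsmall)
    -- k^(1/16) >= 2, t = k^(1/8) >= 4
    set t : ℝ := (k : ℝ) ^ (1 / 8 : ℝ) with ht
    have ht4 : 4 ≤ t := by
      have h1 : ((65536 : ℝ)) ^ (1 / 8 : ℝ) ≤ t := Real.rpow_le_rpow (by norm_num) hbig (by norm_num)
      have h2 : ((65536 : ℝ)) ^ (1 / 8 : ℝ) = 4 := by
        rw [show (65536 : ℝ) = (4 : ℝ) ^ (8 : ℝ) by norm_num, ← Real.rpow_mul (by norm_num)]
        norm_num
      linarith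
    have ht2 : t ^ 2 = (k : ℝ) ^ (1 / 4 : ℝ) := by
      rw [ht, ← Real.rpow_natCast, ← Real.rpow_mul hkpos.le]
      norm_num
    have ht8 : t ^ 8 = k := by
      rw [ht, ← Real.rpow_natCast, ← Real.rpow_mul hkpos.le]
      norm_num
    have hkd4 : t ^ 2 ≤ (k : ℝ) / d := by
      rw [ht2, le_div_iff₀ hdpos]
      calc (k : ℝ) ^ (1 / 4 : ℝ) * d ≤ (k : ℝ) ^ (1 / 4 : ℝ) * (k : ℝ) ^ (3 / 4 : ℝ) := by
            exact mul_le_mul_of_nonneg_left hdk (by positivity)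
        _ = k := by
            rw [← Real.rpow_add hkpos]
            norm_num
    set N : ℕ := a / d with hN
    have hNlow : t ≤ (N : ℝ) := by
      have h1 : (a : ℝ) < d * ((N : ℝ) + 1) := by
        have h : a < d * (a / d + 1) := Nat.lt_mul_div_succ a (by omega)
        have : (a : ℝ) < ((d * (a / d + 1) : ℕ) : ℝ) := by exact_mod_cast h
        push_cast at this
        rw [hN]
        push_cast
        exact this
      have h2 : (k : ℝ) ≤ 2 * a := by exact_mod_cast hka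
      have h3 : (k : ℝ) / d < 2 * ((N : ℝ) + 1) := by
        rw [div_lt_iff₀ hdpos]
        nlinarith
      nlinarith
    have hN1 : 1 ≤ N := by
      have : (1 : ℝ) ≤ N := by linarith
      exact_mod_cast this
    have hNpos : (0 : ℝ) < N := by exact_mod_cast hN1
    have hNk : (N : ℝ) ≤ (k : ℝ) / d := by
      have h2 : ((a / d : ℕ) : ℝ) ≤ (a : ℝ) / d := Nat.cast_div_le
      have h3 : (a : ℝ) / d ≤ (k : ℝ) / d := by
        have : (a : ℝ) ≤ k := by exact_mod_cast hab.trans hbk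
        gcongr
      rw [hN]; linarith
    set M : ℕ := min (b / d) (2 * N) with hM
    have hNb : N ≤ b / d := Nat.div_le_div_right hab
    have hNM : N ≤ M := by rw [hM]; exact le_min hNb (by omega)
    have hMb : M ≤ b / d := min_le_left _ _
    have hbM : b / d ≤ M + 1 := by
      have h1 : b / d ≤ 2 * N + 1 := by
        have h2 : b ≤ 2 * a := by omega
        have h3 : a < d * (N + 1) := Nat.lt_mul_div_succ a (by omega)
        have h4 : b < d * (2 * N + 2) := by nlinarith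
        have h5 : b / d < 2 * N + 2 := Nat.div_lt_of_lt_mul h4
        omega
      rw [hM]
      rcases le_total (b / d) (2 * N) with h | h
      · rw [min_eq_left h]; omega
      · rw [min_eq_right h]; omega
    have hsplit : ∑ l ∈ Ioc N (b / d), ee (x / (d * l)) =
        ∑ l ∈ Ioc N M, ee (x / (d * l)) + ∑ l ∈ Ioc M (b / d), ee (x / (d * l)) :=
      (Finset.sum_Ioc_consecutive _ hNM hMb).symm
    have hy1 : (N : ℝ) ≤ x / d := hNk.trans (by gcongr)
    have hy2 : x / d ≤ (N : ℝ) ^ (8 * A) := by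
      calc x / d ≤ x := div_le_self hxpos.le hd'
        _ ≤ (k : ℝ) ^ A := hxA
        _ = t ^ (8 * A) := by rw [pow_mul, ht8]
        _ ≤ (N : ℝ) ^ (8 * A) := pow_le_pow_left₀ (by linarith) hNlow _
    have hmain := hK N N M (x / d) hN1 le_rfl hNM (min_le_right _ _) hy1 hy2
    have hcongr : ∑ l ∈ Ioc N M, ee (x / (d * l)) = ∑ l ∈ Ioc N M, ee (x / d / l) := by
      refine Finset.sum_congr rfl fun l _ => ?_
      rw [div_div]
    have hextra : ‖∑ l ∈ Ioc M (b / d), ee (x / (d * l))‖ ≤ 1 := by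
      refine (TID_triv _ _ _).trans ?_
      have : b / d - M ≤ 1 := by omega
      exact_mod_cast this
    have e1 : (N : ℝ) ^ 2 / (x / d) ≤ ((k : ℝ) / d) * ((k : ℝ) / x) := by
      rw [div_div_eq_mul_div, div_le_iff₀ hxpos]
      have h1 : (N : ℝ) ^ 2 ≤ ((k : ℝ) / d) ^ 2 := pow_le_pow_left₀ hNpos.le hNk 2
      calc (N : ℝ) ^ 2 * d ≤ ((k : ℝ) / d) ^ 2 * d := mul_le_mul_of_nonneg_right h1 hdpos.le
        _ = ((k : ℝ) / d) * ((k : ℝ) / x) * x := by field_simp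
    have e2 : (N : ℝ) ^ (1 - δ') ≤ ((k : ℝ) / d) * (k : ℝ) ^ (-(δ' / 4)) := by
      have h1 : (N : ℝ) ^ (1 - δ') ≤ ((k : ℝ) / d) ^ (1 - δ') := Real.rpow_le_rpow hNpos.le hNk (by linarith)
      have h0 : (0 : ℝ) < (k : ℝ) / d := by positivity
      rw [sub_eq_add_neg, Real.rpow_add h0, Real.rpow_one] at h1
      refine h1.trans (mul_le_mul_of_nonneg_left ?_ h0.le)
      have h2 : (k : ℝ) ^ (1 / 4 : ℝ) ≤ (k : ℝ) / d := by rw [← ht2]; exact hkd4
      calc ((k : ℝ) / d) ^ (-δ') ≤ ((k : ℝ) ^ (1 / 4 : ℝ)) ^ (-δ') :=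
            Real.rpow_le_rpow_of_nonpos (Real.rpow_pos_of_pos hkpos _) h2 (by linarith)
        _ = (k : ℝ) ^ (-(δ' / 4)) := by
            rw [← Real.rpow_mul hkpos.le]
            congr 1; ring
    have e3 : (1 : ℝ) ≤ ((k : ℝ) / d) * (k : ℝ) ^ (-(δ' / 4)) := by
      have h2 : (k : ℝ) ^ (1 / 4 : ℝ) ≤ (k : ℝ) / d := by rw [← ht2]; exact hkd4
      calc (1 : ℝ) = (k : ℝ) ^ (1 / 4 : ℝ) * (k : ℝ) ^ (-(1 / 4 : ℝ)) := by
            rw [← Real.rpow_add hkpos]; norm_num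
        _ ≤ ((k : ℝ) / d) * (k : ℝ) ^ (-(δ' / 4)) := by
            refine mul_le_mul h2 (Real.rpow_le_rpow_of_exponent_le hk1 (by linarith)) (by positivity) (by positivity)
    rw [hsplit]
    refine (norm_add_le _ _).trans ?_
    rw [hcongr]
    have hC0 : 0 ≤ C' := by linarith
    have h7 : C' * ((N : ℝ) ^ 2 / (x / d) + (N : ℝ) ^ (1 - δ')) ≤
        C' * (((k : ℝ) / d) * ((k : ℝ) / x) + ((k : ℝ) / d) * (k : ℝ) ^ (-(δ' / 4))) :=
      mul_le_mul_of_nonneg_left (add_le_add e1 e2) hC0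
    have h8 : 0 ≤ ((k : ℝ) / d) * ((k : ℝ) / x) := by positivity
    have h9 : 0 ≤ ((k : ℝ) / d) * (k : ℝ) ^ (-(δ' / 4)) := by positivity
    nlinarith

end Pool.Agent.DFO
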